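import Pool.Agent.Helper14.Kak.B1

/-! Module B2a of the proof for MP_013a6c_an: the law of `w`, measurability. -/

open MeasureTheory Set Topology Filter
open scoped symmDiff ENNReal ProbabilityTheory

namespace KakC

theorem lam_prob : IsProbabilityMeasure lam := by
  unfold lam
  infer_instance

/-- coordinates are measurable -/
private theorem B2a_eval (k : ℕ) : Measurable (fun ξ : PP => ξ k) := measurable_pi_apply k

theorem measurable_w (t : ℕ → ℕ) (k : ℕ) : Measurable (w t k) := by
  induction k with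
  | zero =>
    have h1 : Measurable (fun p : Fin (N 0) × Fin (B 0) => ((p.1 : ℕ), 0)) :=
      measurable_of_countable _
    exact h1.comp (B2a_eval 0)
  | succ k ih =>
    have h1 : Measurable (fun p : (Fin (N (k + 1)) × Fin (B (k + 1))) ×
        ((Fin (N k) × Fin (B k)) × (ℕ × ℕ)) => ((p.1.1 : ℕ),
          pos k (t k) p.1.1 p.2.1.1 p.1.2 * h k + p.2.2.2)) :=
      measurable_of_countable _
    exact h1.comp ((B2a_eval (k + 1)).prodMk ((B2a_eval k).prodMk ih))

theorem measurable_repl (s : ℕ → ℕ) (k : ℕ) {X : Type*} [MeasurableSpace X] {u : X → ℕ × ℕ}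
    {v : X → PP} (hu : Measurable u) (hv : Measurable v) :
    Measurable (fun x => repl s k (u x) (v x)) := by
  induction k generalizing u with
  | zero =>
    have h1 : Measurable (fun p : ℕ × ℕ => ((Fin.ofNat (N 0) p.1, Fin.ofNat (B 0) 0) :
        Fin (N 0) × Fin (B 0))) := measurable_of_countable _
    exact measurable_update'.comp (hv.prodMk (h1.comp hu))
  | succ k ih =>
    have h1 : Measurable (fun p : ℕ × ℕ => ((Fin.ofNat (N (k + 1)) p.1,
        Fin.ofNat (B (k + 1)) (rnk k (s k) p.1 (p.2 / h k))) :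
        Fin (N (k + 1)) × Fin (B (k + 1)))) := measurable_of_countable _
    have h2 : Measurable (fun p : ℕ × ℕ => proj k (s k) p) := measurable_of_countable _
    exact measurable_update'.comp ((ih (h2.comp hu)).prodMk (h1.comp hu))

private theorem B2a_prod (k : ℕ) : ∏ j ∈ Finset.range (k + 1), N j * B j = N k * h k := by
  induction k with
  | zero => simp [B, h]
  | succ k ih =>
    rw [Finset.prod_range_succ, ih, B, h, L]
    ring

private theorem B2a_single (k : ℕ) (x : Fin (N k) × Fin (B k)) :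
    ProbabilityTheory.uniformOn (Set.univ : Set (Fin (N k) × Fin (B k))) {x} =
      ((N k * B k : ℕ) : ℝ≥0∞)⁻¹ := by
  rw [ProbabilityTheory.uniformOn_univ, Measure.count_singleton, Fintype.card_prod,
    Fintype.card_fin, Fintype.card_fin, one_div]

theorem law_w (t : ℕ → ℕ) {k i l : ℕ} (hi : i < N k) (hl : l < h k) :
    lam (w t k ⁻¹' {(i, l)}) = ((N k * h k : ℕ) : ℝ≥0∞)⁻¹ := by
  set p : PP := repl t k (i, l) (fun j => (0, 0)) with hp
  have hwp : w t k p = (i, l) := w_repl t (show (i, l) ∈ Om k from ⟨hi, hl⟩) _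
  have hset : w t k ⁻¹' {(i, l)} =
      Set.pi ((Finset.range (k + 1) : Finset ℕ) : Set ℕ) (fun j => {p j}) := by
    ext ξ
    simp only [mem_preimage, mem_singleton_iff, Set.mem_pi, Finset.coe_range, mem_Iio]
    constructor
    · intro hξ j hj
      exact w_inj (t := t) (k := k) (hξ.trans hwp.symm) j (by omega)
    · intro hξ
      rw [← hwp]
      exact w_congr (fun _ _ => rfl) (fun j hj => hξ j (by omega))
  rw [hset, lam, Measure.infinitePi_pi _ (fun j _ => MeasurableSet.singleton _)]
  simp only [B2a_single]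
  rw [← B2a_prod k, Nat.cast_prod]
  refine (ENNReal.prod_inv_distrib ?_).symm
  intro a _ b _ _
  left
  exact_mod_cast (Nat.mul_pos (N_pos a) (B_pos a)).ne'

/-- digits of level `k + 1`: the bad event for the isomorphism -/
theorem lam_digit (k : ℕ) {p q : ℕ} (hpq : p ≤ q) (hq : q ≤ B k) :
    lam {ξ : PP | p ≤ ((ξ k).2 : ℕ) ∧ ((ξ k).2 : ℕ) < q} =
      ((q - p : ℕ) : ℝ≥0∞) / (B k : ℝ≥0∞) := by
  have hm : MeasurableSet {x : Fin (N k) × Fin (B k) | p ≤ (x.2 : ℕ) ∧ (x.2 : ℕ) < q} :=
    Set.to_countable _ |>.measurableSet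
  have h1 : lam {ξ : PP | p ≤ ((ξ k).2 : ℕ) ∧ ((ξ k).2 : ℕ) < q} =
      ProbabilityTheory.uniformOn (Set.univ : Set (Fin (N k) × Fin (B k)))
        {x : Fin (N k) × Fin (B k) | p ≤ (x.2 : ℕ) ∧ (x.2 : ℕ) < q} := by
    have := (measurePreserving_eval_infinitePi (fun k =>
      ProbabilityTheory.uniformOn (Set.univ : Set (Fin (N k) × Fin (B k)))) k).measure_preimage
        hm.nullMeasurableSet
    rw [← this]
    rfl
  have h2 : {x : Fin (N k) × Fin (B k) | p ≤ (x.2 : ℕ) ∧ (x.2 : ℕ) < q} =
      ((Finset.univ ×ˢ (Finset.univ.filter (fun y : Fin (B k) => p ≤ (y : ℕ) ∧ (y : ℕ) < q)) :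
        Finset (Fin (N k) × Fin (B k))) : Set (Fin (N k) × Fin (B k))) := by
    ext x
    simp
  have h3 : (Finset.univ.filter (fun y : Fin (B k) => p ≤ (y : ℕ) ∧ (y : ℕ) < q)).card =
      q - p := by
    rw [← Nat.card_Ico p q]
    refine Finset.card_bij (fun (y : Fin (B k)) _ => (y : ℕ)) ?_ ?_ ?_
    · intro y hy
      simp only [Finset.mem_filter, Finset.mem_univ, true_and] at hy
      simp [hy.1, hy.2]
    · intro y _ z _ hyz
      exact Fin.ext hyz
    · intro y hy
      simp only [Finset.mem_Ico] at hy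
      exact ⟨⟨y, by omega⟩, by simp [hy.1, hy.2], rfl⟩
  rw [h1, ProbabilityTheory.uniformOn_univ, h2, Measure.count_apply_finset, Finset.card_product,
    h3, Fintype.card_prod, Fintype.card_fin, Fintype.card_fin, Finset.card_univ, Fintype.card_fin]
  push_cast
  rw [ENNReal.mul_div_mul_left]
  · exact_mod_cast (N_pos k).ne'
  · exact ENNReal.natCast_ne_top _

end KakC
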